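import Pool.Agent.Helper69.HA.TopDefs
import Pool.Agent.Helper69.HA.CerFacts

/-!
# Project HA, module HA-T1: the space is closed in the ambient compact space
-/

set_option autoImplicit false
set_option linter.unusedSectionVars false

namespace Pool.Agent.Helper69.HA

open Set

namespace ClosedAux

section

variable {Ω : Type} [LinearOrder Ω] {e : Ω → ℕ → Ω → Prop} {E : Ω → Set Ω → ℕ → ℕ → Prop}

/-- Certificates for one branch. -/
abbrev cer (e : Ω → ℕ → Ω → Prop) (E : Ω → Set Ω → ℕ → ℕ → Prop) (b : Set Ω) (j : Unit) (δ : Ω)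
    (o : Ω ⊕ ℕ) (v : Bool) : Prop :=
  Cer (I := Unit) (fun x y => x < y) e (fun _ δ _ v => (v = true ↔ δ ∈ b))
    (fun _ δ m x => E δ {γ | γ ∈ b ∧ γ < δ} m x) j δ o v

theorem bne_bne (a b : Bool) : ((a != b) != b) = a := by cases a <;> cases b <;> rfl

theorem memL_iff {b : Set Ω} {δ : Ω} {o : Ω ⊕ ℕ} :
    MemL (fun x y => x < y) e E b δ o ↔ cer e E b () δ o true := Iff.rfl

theorem cer_unique (hE : ∀ (b : Set Ω) (δ : Ω) (m : ℕ), ∃! x, E δ {γ | γ ∈ b ∧ γ < δ} m x)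
    {b : Set Ω} {j : Unit} {δ : Ω} {o : Ω ⊕ ℕ} {v v' : Bool} (h : cer e E b j δ o v)
    (h' : cer e E b j δ o v') : v = v' := by
  refine Cer.unique (fun x : Ω => lt_irrefl x) (fun x y h => not_lt.2 h.le) ?_ ?_ h h'
  · intro j δ k v k' v' h h'
    refine ⟨rfl, ?_⟩
    rw [Bool.eq_iff_iff]
    exact h.trans h'.symm
  · intro k δ m x y h h'
    exact (hE b δ m).unique h h'

theorem cer_total [WellFoundedLT Ω] (he : EnumL (fun x y => x < y) e)
    (hE : ∀ (b : Set Ω) (δ : Ω) (m : ℕ), ∃! x, E δ {γ | γ ∈ b ∧ γ < δ} m x)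
    (b : Set Ω) (j : Unit) (δ : Ω) (o : Ω ⊕ ℕ) : ∃ v, cer e E b j δ o v := by
  classical
  refine Cer.total wellFounded_lt (fun x y => lt_trichotomy x y) he ?_ ?_ δ j o
  · intro j δ
    exact ⟨(), decide (δ ∈ b), by simp⟩
  · intro k δ m
    exact (hE b δ m).exists

theorem cer_false [WellFoundedLT Ω] (he : EnumL (fun x y => x < y) e)
    (hE : ∀ (b : Set Ω) (δ : Ω) (m : ℕ), ∃! x, E δ {γ | γ ∈ b ∧ γ < δ} m x)
    {b : Set Ω} {δ : Ω} {o : Ω ⊕ ℕ} (h : ¬ MemL (fun x y => x < y) e E b δ o) :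
    cer e E b () δ o false := by
  obtain ⟨v, hv⟩ := cer_total he hE b () δ o
  cases v with
  | false => exact hv
  | true => exact absurd hv h

theorem not_memL_of_lt (hE : ∀ (b : Set Ω) (δ : Ω) (m : ℕ), ∃! x, E δ {γ | γ ∈ b ∧ γ < δ} m x)
    {b : Set Ω} {δ ξ : Ω} (h : δ < ξ) : ¬ MemL (fun x y => x < y) e E b δ (.inl ξ) := by
  intro h1
  have h2 : cer e E b () δ (.inl ξ) false := Cer.above _ _ _ h
  exact absurd (cer_unique hE h1 h2) (by simp)

theorem node_eq {b b' : Set Ω} {δ : Ω} (h : ∀ ξ, ξ < δ → (ξ ∈ b ↔ ξ ∈ b')) :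
    {γ | γ ∈ b ∧ γ < δ} = {γ | γ ∈ b' ∧ γ < δ} := by
  ext γ
  constructor
  · rintro ⟨h1, h2⟩
    exact ⟨(h γ h2).1 h1, h2⟩
  · rintro ⟨h1, h2⟩
    exact ⟨(h γ h2).2 h1, h2⟩

theorem cer_congr (he : EnumL (fun x y => x < y) e) {b b' : Set Ω} {j : Unit} {δ : Ω}
    {o : Ω ⊕ ℕ} {v : Bool} (hc : cer e E b j δ o v)
    (h : ∀ ξ, ξ ≤ δ → (ξ ∈ b ↔ ξ ∈ b')) : cer e E b' j δ o v := by
  have hlow : ∀ {δ γ : Ω} {m : ℕ}, (∀ ξ, ξ ≤ δ → (ξ ∈ b ↔ ξ ∈ b')) → e δ m γ →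
      ∀ ξ, ξ ≤ γ → (ξ ∈ b ↔ ξ ∈ b') := by
    intro δ γ m h hm ξ hξ
    exact h ξ (hξ.trans (he.below _ _ _ hm).le)
  have hC : ∀ {δ : Ω} {m x : ℕ}, (∀ ξ, ξ ≤ δ → (ξ ∈ b ↔ ξ ∈ b')) →
      E δ {γ | γ ∈ b ∧ γ < δ} m x → E δ {γ | γ ∈ b' ∧ γ < δ} m x := by
    intro δ m x h hx
    rwa [← node_eq fun ξ hξ => h ξ hξ.le]
  induction hc with
  | self j δ => exact .self j δ
  | above j δ ξ h1 => exact .above j δ ξ h1
  | step j δ ξ k v m γ x h1 h2 _ h4 _ h6 ih1 ih2 =>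
    exact .step j δ ξ k v m γ x h1 (h2.trans (h δ le_rfl))
      (fun m' hm' γ' hγ' => ih1 m' hm' γ' hγ' (hlow h hγ')) h4 (ih2 (hlow h h4)) (hC h h6)
  | hit j δ l k v m γ x h1 h2 _ h4 _ h6 h7 ih1 ih2 =>
    exact .hit j δ l k v m γ x (h1.trans (h δ le_rfl)) h2
      (fun m' hm' γ' hγ' => ih1 m' hm' γ' hγ' (hlow h hγ')) h4 (ih2 (hlow h h4)) (hC h h6) h7
  | low j δ l k v m γ x y h1 h2 _ h4 _ h6 h7 h8 ih1 ih2 =>
    exact .low j δ l k v m γ x y (h1.trans (h δ le_rfl)) h2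
      (fun m' hm' γ' hγ' => ih1 m' hm' γ' hγ' (hlow h hγ')) h4 (ih2 (hlow h h4)) (hC h h6) h7
      (hC h h8)
  | none j δ l k v y h1 _ h3 ih1 =>
    exact .none j δ l k v y (h1.trans (h δ le_rfl))
      (fun m' hm' γ' hγ' => ih1 m' hm' γ' hγ' (hlow h hγ')) (hC h h3)

theorem cer_congr' (he : EnumL (fun x y => x < y) e) {b b' : Set Ω} {δ γ : Ω} {m : ℕ}
    (h : ∀ ξ, ξ < δ → (ξ ∈ b ↔ ξ ∈ b')) (hγ : e δ m γ) {j : Unit} {o : Ω ⊕ ℕ} {v : Bool}
    (hc : cer e E b j γ o v) : cer e E b' j γ o v :=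
  cer_congr he hc fun ξ hξ => h ξ (hξ.trans_lt (he.below _ _ _ hγ))

open Classical in
theorem node_inr [WellFoundedLT Ω] (he : EnumL (fun x y => x < y) e)
    (hE : ∀ (b : Set Ω) (δ : Ω) (m : ℕ), ∃! x, E δ {γ | γ ∈ b ∧ γ < δ} m x)
    (b : Set Ω) (δ : Ω) (l : ℕ) : ∃ r : Bool, ∀ b' : Set Ω, (∀ ξ, ξ < δ → (ξ ∈ b ↔ ξ ∈ b')) →
      cer e E b' () δ (.inr l) (r != decide (δ ∈ b')) := by
  obtain ⟨v, hv⟩ := cer_total he hE b () δ (.inr l)
  cases hv with
  | hit _ _ _ k v m γ x h1 h2 h3 h4 h5 h6 h7 =>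
    refine ⟨bE x, fun b' hb' => ?_⟩
    refine .hit () δ l k (decide (δ ∈ b')) m γ x (by simp) h2
      (fun m' hm' γ' hγ' => cer_congr' he hb' hγ' (h3 m' hm' γ' hγ')) h4 (cer_congr' he hb' h4 h5)
      ?_ h7
    rwa [← node_eq hb']
  | low _ _ _ k v m γ x y h1 h2 h3 h4 h5 h6 h7 h8 =>
    refine ⟨bH y, fun b' hb' => ?_⟩
    refine .low () δ l k (decide (δ ∈ b')) m γ x y (by simp) h2
      (fun m' hm' γ' hγ' => cer_congr' he hb' hγ' (h3 m' hm' γ' hγ')) h4 (cer_congr' he hb' h4 h5)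
      ?_ h7 ?_
    · rwa [← node_eq hb']
    · rwa [← node_eq hb']
  | none _ _ _ k v y h1 h2 h3 =>
    refine ⟨bH y, fun b' hb' => ?_⟩
    refine .none () δ l k (decide (δ ∈ b')) y (by simp)
      (fun m' hm' γ' hγ' => cer_congr' he hb' hγ' (h2 m' hm' γ' hγ')) ?_
    rwa [← node_eq hb']

open Classical in
theorem node_inl [WellFoundedLT Ω] (he : EnumL (fun x y => x < y) e)
    (hE : ∀ (b : Set Ω) (δ : Ω) (m : ℕ), ∃! x, E δ {γ | γ ∈ b ∧ γ < δ} m x)
    (b : Set Ω) (δ ξ : Ω) (hξ : ξ < δ) : ∃ r : Bool, ∀ b' : Set Ω,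
      (∀ ξ, ξ < δ → (ξ ∈ b ↔ ξ ∈ b')) → cer e E b' () δ (.inl ξ) (r != decide (δ ∈ b')) := by
  obtain ⟨v, hv⟩ := cer_total he hE b () δ (.inl ξ)
  cases hv with
  | self => exact absurd hξ (lt_irrefl _)
  | above _ _ _ h => exact absurd hξ (not_lt.2 h.le)
  | step _ _ _ k v m γ x h1 h2 h3 h4 h5 h6 =>
    refine ⟨bE x, fun b' hb' => ?_⟩
    refine .step () δ ξ k (decide (δ ∈ b')) m γ x h1 (by simp)
      (fun m' hm' γ' hγ' => cer_congr' he hb' hγ' (h3 m' hm' γ' hγ')) h4 (cer_congr' he hb' h4 h5)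
      ?_
    rwa [← node_eq hb']

theorem isDel_unique {b b' : Set Ω} {γ γ' : Ω} (h : IsDel b b' γ) (h' : IsDel b b' γ') :
    γ = γ' := by
  rcases lt_trichotomy γ γ' with hlt | heq | hlt
  · exact absurd (h'.1 γ hlt) h.2
  · exact heq
  · exact absurd (h.1 γ' hlt) h'.2

theorem exists_isDel [WellFoundedLT Ω] {b b' : Set Ω} {δ : Ω}
    (h : ¬ ∀ ξ, ξ < δ → (ξ ∈ b ↔ ξ ∈ b')) : ∃ γ, γ < δ ∧ IsDel b b' γ := by
  push Not at h
  obtain ⟨ξ, hξ, hne⟩ := h
  have hex : ({γ : Ω | ¬ (γ ∈ b ↔ γ ∈ b')}).Nonempty := ⟨ξ, by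
    intro h
    rcases hne with ⟨h1, h2⟩ | ⟨h1, h2⟩
    · exact h2 (h.1 h1)
    · exact h1 (h.2 h2)⟩
  obtain ⟨γ, hγ, hmin⟩ := (wellFounded_lt (α := Ω)).has_min _ hex
  have hmin' : ∀ ξ, ξ < γ → (ξ ∈ b ↔ ξ ∈ b') := by
    intro ξ' hξ'
    by_contra hcon
    exact hmin ξ' hcon hξ'
  refine ⟨γ, ?_, hmin', hγ⟩
  by_contra hcon
  have h1 : ξ < γ := hξ.trans_le (not_lt.1 hcon)
  have h2 := hmin' ξ h1
  rcases hne with ⟨h3, h4⟩ | ⟨h3, h4⟩
  · exact h4 (h2.1 h3)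
  · exact h3 (h2.2 h4)

open Classical in
theorem decide_memL (hE : ∀ (b : Set Ω) (δ : Ω) (m : ℕ), ∃! x, E δ {γ | γ ∈ b ∧ γ < δ} m x)
    {b : Set Ω} {δ : Ω} {o : Ω ⊕ ℕ} {v : Bool} (h : cer e E b () δ o v) :
    decide (MemL (fun x y => x < y) e E b δ o) = v := by
  cases v with
  | true => exact decide_eq_true h
  | false =>
    refine decide_eq_false fun h1 => ?_
    exact absurd (cer_unique hE h1 h) (by simp)

open Classical in
theorem ptN_fst (l : ℕ) (δ : Ω) (b : Set Ω) :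
    (ptN (MemL (fun x y => x < y) e E) l).1 (δ, b) =
      (decide (MemL (fun x y => x < y) e E b δ (.inr l)) != decide (δ ∈ b)) := rfl

open Classical in
theorem ptB_del {b b'' : Set Ω} {γ₀ : Ω} (h : IsDel b b'' γ₀) (δ : Ω) :
    (ptB (MemL (fun x y => x < y) e E) b'').1 (δ, b) =
      (decide (MemL (fun x y => x < y) e E b δ (.inl γ₀)) != decide (δ ∈ b)) := by
  have h1 : (∃ γ, IsDel b b'' γ ∧ MemL (fun x y => x < y) e E b δ (.inl γ)) ↔
      MemL (fun x y => x < y) e E b δ (.inl γ₀) := by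
    constructor
    · rintro ⟨γ, h2, h3⟩
      rwa [isDel_unique h h2]
    · intro h2
      exact ⟨γ₀, h, h2⟩
  have h2 : decide (∃ γ, IsDel b b'' γ ∧ MemL (fun x y => x < y) e E b δ (.inl γ)) =
      decide (MemL (fun x y => x < y) e E b δ (.inl γ₀)) := decide_eq_decide.2 h1
  change (decide (∃ γ, IsDel b b'' γ ∧ MemL (fun x y => x < y) e E b δ (.inl γ)) !=
    decide (δ ∈ b)) = _
  rw [h2]

open Classical in
theorem ptB_agree (hE : ∀ (b : Set Ω) (δ : Ω) (m : ℕ), ∃! x, E δ {γ | γ ∈ b ∧ γ < δ} m x)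
    {b b'' : Set Ω} {δ : Ω} (h : ∀ ξ, ξ < δ → (ξ ∈ b ↔ ξ ∈ b'')) :
    (ptB (MemL (fun x y => x < y) e E) b'').1 (δ, b) = decide (δ ∈ b'') := by
  have h1 : (∃ γ, IsDel b b'' γ ∧ MemL (fun x y => x < y) e E b δ (.inl γ)) ↔
      ¬ (δ ∈ b ↔ δ ∈ b'') := by
    constructor
    · rintro ⟨γ, h2, h3⟩
      rcases lt_trichotomy γ δ with hlt | rfl | hlt
      · exact absurd (h γ hlt) h2.2
      · exact h2.2
      · exact absurd h3 (not_memL_of_lt hE hlt)
    · intro h2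
      exact ⟨δ, ⟨h, h2⟩, Cer.self _ _⟩
  have h2 : decide (∃ γ, IsDel b b'' γ ∧ MemL (fun x y => x < y) e E b δ (.inl γ)) =
      decide (¬ (δ ∈ b ↔ δ ∈ b'')) := decide_eq_decide.2 h1
  change (decide (∃ γ, IsDel b b'' γ ∧ MemL (fun x y => x < y) e E b δ (.inl γ)) !=
    decide (δ ∈ b)) = _
  rw [h2]
  by_cases h3 : δ ∈ b <;> by_cases h4 : δ ∈ b'' <;> simp [h3, h4]

theorem spX_node [WellFoundedLT Ω] (he : EnumL (fun x y => x < y) e)
    (hE : ∀ (b : Set Ω) (δ : Ω) (m : ℕ), ∃! x, E δ {γ | γ ∈ b ∧ γ < δ} m x)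
    {w : Amb Ω} (hw : w ∈ spX (MemL (fun x y => x < y) e E)) {δ : Ω} {b b' : Set Ω}
    (h : ∀ ξ, ξ < δ → (ξ ∈ b ↔ ξ ∈ b')) : w.1 (δ, b) = w.1 (δ, b') := by
  classical
  rcases hw with ⟨l, rfl⟩ | ⟨b'', rfl⟩
  · obtain ⟨r, hr⟩ := node_inr he hE b δ l
    rw [ptN_fst, ptN_fst, decide_memL hE (hr b fun _ _ => Iff.rfl), decide_memL hE (hr b' h),
      bne_bne, bne_bne]
  · by_cases h1 : ∀ ξ, ξ < δ → (ξ ∈ b ↔ ξ ∈ b'')
    · rw [ptB_agree hE h1, ptB_agree hE fun ξ hξ => (h ξ hξ).symm.trans (h1 ξ hξ)]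
    · obtain ⟨γ₀, h2, h3⟩ := exists_isDel h1
      have h4 : IsDel b' b'' γ₀ := by
        refine ⟨fun ξ hξ => (h ξ (hξ.trans h2)).symm.trans (h3.1 ξ hξ), fun h5 => h3.2 ?_⟩
        exact (h γ₀ h2).trans h5
      obtain ⟨r, hr⟩ := node_inl he hE b δ γ₀ h2
      rw [ptB_del h3, ptB_del h4, decide_memL hE (hr b fun _ _ => Iff.rfl),
        decide_memL hE (hr b' h), bne_bne, bne_bne]

/-- Approximation of a point of the closure. -/
theorem approx {X : Set (Amb Ω)} {z : Amb Ω} (hz : z ∈ closure X) (hinf : z.2 = OnePoint.infty)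
    (F : Set (Ω × Set Ω)) (hF : F.Finite) (N : ℕ) :
    ∃ w ∈ X, (∀ c ∈ F, w.1 c = z.1 c) ∧ ∀ l : ℕ, w.2 = (l : OnePoint ℕ) → N ≤ l := by
  have ho1 : IsOpen (⋂ c ∈ F, {w : Amb Ω | w.1 c = z.1 c}) := by
    refine hF.isOpen_biInter fun c _ => ?_
    have hc : Continuous fun w : Amb Ω => w.1 c := (continuous_apply c).comp continuous_fst
    exact (isOpen_discrete ({z.1 c} : Set Bool)).preimage hc
  have ho2 : IsOpen ({w : Amb Ω | w.2 ∈ ((fun l : ℕ => (l : OnePoint ℕ)) '' Set.Iio N)ᶜ}) := by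
    have h1 : IsClosed ((fun l : ℕ => (l : OnePoint ℕ)) '' Set.Iio N) :=
      ((Set.finite_Iio N).image _).isClosed
    exact h1.isOpen_compl.preimage continuous_snd
  obtain ⟨w, ⟨hw1, hw2⟩, hwX⟩ := mem_closure_iff.1 hz _ (ho1.inter ho2) (by
    refine ⟨?_, ?_⟩
    · exact Set.mem_iInter₂.2 fun c _ => rfl
    · rintro ⟨l, -, hl⟩
      rw [hinf] at hl
      exact OnePoint.coe_ne_infty l hl)
  refine ⟨w, hwX, fun c hc => Set.mem_iInter₂.1 hw1 c hc, fun l hl => ?_⟩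
  by_contra hcon
  exact hw2 ⟨l, not_le.1 hcon, hl.symm⟩

end

end ClosedAux

open ClosedAux

section

variable {Ω : Type} [LinearOrder Ω]

/-- HA-T1. -/
theorem isClosed_spX [WellFoundedLT Ω] {e : Ω → ℕ → Ω → Prop} {E : Ω → Set Ω → ℕ → ℕ → Prop}
    (he : EnumL (fun x y => x < y) e)
    (hE : ∀ (b : Set Ω) (δ : Ω) (m : ℕ), ∃! x, E δ {γ | γ ∈ b ∧ γ < δ} m x) :
    IsClosed (spX (MemL (fun x y => x < y) e E)) := by
  classical
  refine isClosed_of_closure_subset fun z hz => ?_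
  rcases hz2 : z.2 with _ | l
  · -- the second coordinate is `∞`
    have hinf : z.2 = OnePoint.infty := hz2
    have hap := approx hz hinf
    have hnode : ∀ {δ : Ω} {b b' : Set Ω}, (∀ ξ, ξ < δ → (ξ ∈ b ↔ ξ ∈ b')) →
        z.1 (δ, b) = z.1 (δ, b') := by
      intro δ b b' h
      obtain ⟨w, hw, h1, -⟩ := hap {(δ, b), (δ, b')} (Set.toFinite _) 0
      rw [← h1 (δ, b) (by simp), ← h1 (δ, b') (by simp)]
      exact spX_node he hE hw h
    -- the branch
    let B : Ω → Prop := (wellFounded_lt (α := Ω)).fix fun δ ih =>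
      z.1 (δ, {γ | ∃ h : γ < δ, ih γ h}) = true
    have hB : ∀ δ, B δ = (z.1 (δ, {γ | ∃ _ : γ < δ, B γ}) = true) := by
      intro δ
      exact (wellFounded_lt (α := Ω)).fix_eq _ δ
    let β : Set Ω := {δ | B δ}
    have hβ : ∀ δ, z.1 (δ, β) = decide (δ ∈ β) := by
      intro δ
      have h1 : z.1 (δ, β) = z.1 (δ, {γ | ∃ _ : γ < δ, B γ}) := by
        apply hnode
        intro ξ hξ
        constructor
        · intro h
          exact ⟨hξ, h⟩
        · rintro ⟨_, h⟩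
          exact h
      have h2 : δ ∈ β ↔ z.1 (δ, β) = true := by
        rw [h1]
        exact Iff.of_eq (hB δ)
      by_cases h3 : δ ∈ β
      · rw [h2.1 h3, decide_eq_true h3]
      · rw [decide_eq_false h3]
        rw [h2] at h3
        exact Bool.eq_false_iff.2 h3
    have key : ∀ δ, ∀ b : Set Ω,
        z.1 (δ, b) = (ptB (MemL (fun x y => x < y) e E) β).1 (δ, b) := by
      intro δ
      induction δ using (wellFounded_lt (α := Ω)).induction with
      | _ δ ih =>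
        intro b
        by_cases hag : ∀ ξ, ξ < δ → (ξ ∈ b ↔ ξ ∈ β)
        · rw [ptB_agree hE hag, hnode hag, hβ]
        · obtain ⟨γ₀, h1, h2⟩ := exists_isDel hag
          have hex : ∃ m, ∃ γ, e δ m γ ∧ MemL (fun x y => x < y) e E b γ (.inl γ₀) := by
            obtain ⟨m, hm⟩ := he.onto _ _ h1
            exact ⟨m, γ₀, hm, Cer.self _ _⟩
          obtain ⟨γ₁, h3, h4⟩ := Nat.find_spec hex
          set m₀ := Nat.find hex with hm₀
          have hmin : ∀ m', m' < m₀ → ∀ γ', e δ m' γ' →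
              ¬ MemL (fun x y => x < y) e E b γ' (.inl γ₀) := by
            intro m' hm' γ' hγ' hcon
            exact Nat.find_min hex hm' ⟨γ', hγ', hcon⟩
          obtain ⟨x, hx, -⟩ := hE b δ m₀
          have hD : (decide (δ ∈ b) = true ↔ δ ∈ b) := by simp
          have hr : cer e E b () δ (.inl γ₀) (bE x != decide (δ ∈ b)) :=
            Cer.step () δ γ₀ () (decide (δ ∈ b)) m₀ γ₁ x h1 hD
              (fun m' hm' γ' hγ' => cer_false he hE (hmin m' hm' γ' hγ')) h3 h4 hx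
          rw [ptB_del h2, decide_memL hE hr, bne_bne]
          -- the coordinates used
          let g : ℕ → Ω × Set Ω := fun m' =>
            if h : ∃ γ', e δ m' γ' then (h.choose, b) else (δ, b)
          have hg : ∀ m' γ', e δ m' γ' → g m' = (γ', b) := by
            intro m' γ' h
            have hh : ∃ γ', e δ m' γ' := ⟨γ', h⟩
            have h5 : g m' = (hh.choose, b) := dif_pos hh
            rw [h5, he.func δ m' _ _ hh.choose_spec h]
          obtain ⟨w, hw, hw1, hw2⟩ := hap ({(δ, b), (γ₁, b)} ∪ g '' Set.Iio m₀)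
            ((Set.toFinite _).union ((Set.finite_Iio m₀).image g)) (max m₀ (vF x))
          have hwδ : w.1 (δ, b) = z.1 (δ, b) := hw1 _ (Or.inl (by simp))
          have hz' : ∀ γ, γ < δ → z.1 (γ, b) =
              (decide (MemL (fun x y => x < y) e E b γ (.inl γ₀)) != decide (γ ∈ b)) := by
            intro γ hγ
            rw [ih γ hγ b, ptB_del h2]
          have hw₁ : w.1 (γ₁, b) = (true != decide (γ₁ ∈ b)) := by
            rw [hw1 _ (Or.inl (by simp)), hz' γ₁ (he.below _ _ _ h3), decide_eq_true h4]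
          have hw₂ : ∀ m', m' < m₀ → ∀ γ', e δ m' γ' →
              w.1 (γ', b) = (false != decide (γ' ∈ b)) := by
            intro m' hm' γ' hγ'
            have h5 : (γ', b) ∈ g '' Set.Iio m₀ := ⟨m', hm', hg m' γ' hγ'⟩
            rw [hw1 _ (Or.inr h5), hz' γ' (he.below _ _ _ hγ'),
              decide_eq_false (hmin m' hm' γ' hγ')]
          have bne_cancel : ∀ a c d : Bool, (a != d) = (c != d) → a = c := by
            intro a c d h
            cases a <;> cases c <;> cases d <;> simp_all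
          rw [← hwδ]
          rcases hw with ⟨l, rfl⟩ | ⟨b'', rfl⟩
          · -- an isolated point
            have hl := hw2 l rfl
            rw [ptN_fst] at hw₁
            have h5 : MemL (fun x y => x < y) e E b γ₁ (.inr l) :=
              of_decide_eq_true (bne_cancel _ _ _ hw₁)
            have h6 : ∀ m', m' < m₀ → ∀ γ', e δ m' γ' → cer e E b () γ' (.inr l) false := by
              intro m' hm' γ' hγ'
              have h7 := hw₂ m' hm' γ' hγ'
              rw [ptN_fst] at h7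
              exact cer_false he hE (of_decide_eq_false (bne_cancel _ _ _ h7))
            have h8 : cer e E b () δ (.inr l) (bE x != decide (δ ∈ b)) :=
              Cer.hit () δ l () (decide (δ ∈ b)) m₀ γ₁ x hD ((le_max_left _ _).trans hl) h6 h3 h5
                hx ((le_max_right _ _).trans hl)
            rw [ptN_fst, decide_memL hE h8, bne_bne]
          · -- a branch
            have h5 : ∃ γ, IsDel b b'' γ ∧ MemL (fun x y => x < y) e E b γ₁ (.inl γ) := by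
              have h6 : (decide (∃ γ, IsDel b b'' γ ∧
                  MemL (fun x y => x < y) e E b γ₁ (.inl γ)) != decide (γ₁ ∈ b)) =
                  (true != decide (γ₁ ∈ b)) := hw₁
              exact of_decide_eq_true (bne_cancel _ _ _ h6)
            obtain ⟨γ₂, h6, h7⟩ := h5
            have h8 : γ₂ < δ := by
              by_contra hcon
              have h9 : γ₁ < γ₂ := (he.below _ _ _ h3).trans_le (not_lt.1 hcon)
              exact not_memL_of_lt hE h9 h7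
            have h9 : ∀ m', m' < m₀ → ∀ γ', e δ m' γ' → cer e E b () γ' (.inl γ₂) false := by
              intro m' hm' γ' hγ'
              have h10 := hw₂ m' hm' γ' hγ'
              rw [ptB_del h6] at h10
              exact cer_false he hE (of_decide_eq_false (bne_cancel _ _ _ h10))
            have h10 : cer e E b () δ (.inl γ₂) (bE x != decide (δ ∈ b)) :=
              Cer.step () δ γ₂ () (decide (δ ∈ b)) m₀ γ₁ x h8 hD h9 h3 h7 hx
            rw [ptB_del h6, decide_memL hE h10, bne_bne]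
    refine Or.inr ⟨β, ?_⟩
    refine Prod.ext ?_ hinf.symm
    funext c
    exact (key c.1 c.2).symm
  · -- an isolated point
    have hl : z.2 = (l : OnePoint ℕ) := hz2
    by_contra hcon
    have hne : z ≠ ptN (MemL (fun x y => x < y) e E) l := by
      intro h
      exact hcon (Or.inl ⟨l, h.symm⟩)
    have ho1 : IsOpen {w : Amb Ω | w.2 ∈ ((fun l : ℕ => (l : OnePoint ℕ)) '' {l})} := by
      have h1 : IsOpen ((fun l : ℕ => (l : OnePoint ℕ)) '' {l}) :=
        OnePoint.isOpenEmbedding_coe.isOpenMap _ (isOpen_discrete _)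
      exact h1.preimage continuous_snd
    have ho2 : IsOpen ({ptN (MemL (fun x y => x < y) e E) l}ᶜ : Set (Amb Ω)) :=
      isClosed_singleton.isOpen_compl
    obtain ⟨w, ⟨hw1, hw2⟩, hwX⟩ := mem_closure_iff.1 hz _ (ho1.inter ho2) ⟨⟨l, rfl, hl.symm⟩, hne⟩
    obtain ⟨l', rfl, hl'⟩ := hw1
    rcases hwX with ⟨l'', rfl⟩ | ⟨b'', rfl⟩
    · have h1 : ((l' : ℕ) : OnePoint ℕ) = (l'' : OnePoint ℕ) := hl'
      have h2 : l' = l'' := OnePoint.coe_injective h1
      exact hw2 (by rw [h2]; rfl)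
    · exact OnePoint.coe_ne_infty l' hl'

end

end Pool.Agent.Helper69.HA
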